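import Pool.Agent.H70.Sch

namespace Pool.Agent.Results.MP_f4dda6_al.Counterexample

open Pool.Agent.H70.Sch Pool.Agent.H65.Thom

theorem result (S : Finset ThompsonF) (hS : Subgroup.closure (S : Set ThompsonF) = ⊤) :
    ∃ H : Subgroup ThompsonF, ¬ Confined H ∧ ∀ K : ℕ, ∀ᶠ n in Filter.atTop, ¬ ∃ g : ThompsonF,
      ball S (mv H g) n ⊆ ball S H (K * n) ∧ IsCayleyBall S (mv H g) n :=
  main S hS

end Pool.Agent.Results.MP_f4dda6_al.Counterexample
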